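import Pool.Agent.TH858.CB.Main

/-!
# Q1 when `2A - 2A` contains a convex Bohr set

A convex Bohr set is a set of the form `{x ∈ ℤ/N : (γ_1 x / N, …, γ_d x / N) ∈ K + ℤ^d}` with frequencies
`γ_1, …, γ_d` and a symmetric convex set `K ⊆ ℝ^d`. The theorem says that the conclusion of Q1 holds for `A` as soon as
`2A - 2A` contains a convex Bohr set of dimension `O(log (1/α))`, of diameter `O(log (1/α))` and of density
`exp (- O(log (1/α) log log (1/α)))`; in particular it holds for the convex Bohr sets `A` of dimension `O(log (1/α))`.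

The main step is `part_one`: for `R ≥ d + 2` and `K ⊆ [-R, R]^d` a convex Bohr set of density `β` contains a Bohr set
with at most `24 d + 4 log (1/β) / log R` frequencies and radius `1 / (8 R)`. It is proved with an exchange argument
for determinants (`Exch`), a choice of a basis of lattice vectors (`Sel`) and a count of lattice points (`Idx`).
-/

set_option autoImplicit false

namespace Pool.Agent.Results.MP_169871_nt.ConvexBohrSets

open Pool.Agent.TH858.CB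

/-- The Bohr set `B(Γ, ε) = {x ∈ ℤ/N : ‖γ x / N‖ ≤ ε for all γ ∈ Γ}`; the norm is the distance to the nearest
integer. -/
def bohr {N : ℕ} (Γ : Finset (ZMod N)) (ε : ℝ) : Set (ZMod N) :=
  {x | ∀ γ ∈ Γ, |((γ * x).val : ℝ) / (N : ℝ) - ((round (((γ * x).val : ℝ) / (N : ℝ)) : ℤ) : ℝ)| ≤ ε}

/-- The convex Bohr set `{x ∈ ℤ/N : (γ_1 x / N, …, γ_d x / N) ∈ K + ℤ^d}`. -/
def convexBohr {N d : ℕ} (γ : Fin d → ZMod N) (K : Set (Fin d → ℝ)) : Set (ZMod N) :=
  {x | ∃ y ∈ K, ∀ k, ∃ z : ℤ, y k = ((γ k * x).val : ℝ) / (N : ℝ) + (z : ℝ)}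

/-- The set `2A - 2A`. -/
def twoAMinusTwoA {N : ℕ} (A : Finset (ZMod N)) : Set (ZMod N) :=
  {x | ∃ a₁ ∈ A, ∃ a₂ ∈ A, ∃ a₃ ∈ A, ∃ a₄ ∈ A, x = a₁ + a₂ - a₃ - a₄}

/-- A convex Bohr set contains a Bohr set of small dimension. -/
theorem part_one (N : ℕ) (hN : 0 < N) (d : ℕ) (γ : Fin d → ZMod N) (K : Set (Fin d → ℝ)) (hne : K.Nonempty)
    (hK : Convex ℝ K) (hsym : ∀ y ∈ K, -y ∈ K) (R : ℝ) (hR : (d : ℝ) + 2 ≤ R) (hKR : ∀ y ∈ K, ∀ k, |y k| ≤ R) :
    ∃ Γ : Finset (ZMod N),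
      (Γ.card : ℝ) ≤ 24 * d + 4 * (Real.log ((N : ℝ) / ((convexBohr γ K).ncard : ℝ)) / Real.log R) ∧
      bohr Γ (1 / (8 * R)) ⊆ convexBohr γ K := by
  have : NeZero N := ⟨hN.ne'⟩
  classical
  obtain ⟨A, hAdef⟩ : ∃ A : Finset (ZMod N), A = (convexBohr γ K).toFinset := ⟨_, rfl⟩
  have hAmem : ∀ x, x ∈ A ↔ ∃ y ∈ K, ∀ k, |y k| ≤ R ∧ ∃ z : ℤ, y k = ((γ k * x).val : ℝ) / N + z := by
    intro x
    rw [hAdef, Set.mem_toFinset]
    constructor
    · rintro ⟨y, hy, h⟩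
      exact ⟨y, hy, fun k => ⟨hKR y hy k, h k⟩⟩
    · rintro ⟨y, hy, h⟩
      exact ⟨y, hy, fun k => (h k).2⟩
  have h0 : (0 : Fin d → ℝ) ∈ K := by
    obtain ⟨y, hy⟩ := hne
    have := hK hy (hsym y hy) (a := 1 / 2) (b := 1 / 2) (by norm_num) (by norm_num) (by norm_num)
    simpa using this
  have hAne : A.Nonempty := by
    refine ⟨0, ?_⟩
    rw [hAdef, Set.mem_toFinset]
    exact ⟨0, h0, fun k => ⟨0, by simp⟩⟩
  obtain ⟨Γ, h1, h2⟩ := main γ K hK hsym R hR A hAne hAmem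
  have hcard : (convexBohr γ K).ncard = A.card := by
    rw [hAdef, Set.ncard_eq_toFinset_card']
  refine ⟨Γ, ?_, ?_⟩
  · rw [hcard]; exact h1
  · intro x hx
    have := h2 x (fun g hg => hx g hg)
    rw [hAdef, Set.mem_toFinset] at this
    exact this

/-- **Q1 when `2A - 2A` contains a convex Bohr set.** -/
theorem result (C : ℝ) (hC : 0 < C) (N : ℕ) (hN : 0 < N) (A : Finset (ZMod N)) (hAne : A.Nonempty)
    (hα : (A.card : ℝ) / (N : ℝ) ≤ 1 / 2)
    -- `X = convexBohr γ K` is a convex Bohr set of dimension `d` contained in `2A - 2A`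
    (d : ℕ) (γ : Fin d → ZMod N) (K : Set (Fin d → ℝ)) (hne : K.Nonempty) (hK : Convex ℝ K)
    (hsym : ∀ y ∈ K, -y ∈ K) (hsub : convexBohr γ K ⊆ twoAMinusTwoA A)
    (hd : (d : ℝ) ≤ C * Real.log ((N : ℝ) / (A.card : ℝ)))
    (hKR : ∀ y ∈ K, ∀ k, |y k| ≤ C * Real.log ((N : ℝ) / (A.card : ℝ)))
    (hdens : Real.log ((N : ℝ) / ((convexBohr γ K).ncard : ℝ)) ≤
      C * Real.log ((N : ℝ) / (A.card : ℝ)) * Real.log (2 + Real.log ((N : ℝ) / (A.card : ℝ)))) :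
    ∃ (Γ : Finset (ZMod N)) (ε : ℝ), 0 < ε ∧
      (Γ.card : ℝ) ≤ (32 * C) * Real.log ((N : ℝ) / (A.card : ℝ)) ∧
      (1 / (8 * (C + 3))) / Real.log ((N : ℝ) / (A.card : ℝ)) ≤ ε ∧
      bohr Γ ε ⊆ twoAMinusTwoA A := by
  obtain ⟨l, hl⟩ : ∃ l : ℝ, l = Real.log ((N : ℝ) / (A.card : ℝ)) := ⟨_, rfl⟩
  rw [← hl] at hd hKR hdens ⊢
  have hNpos : (0 : ℝ) < N := by exact_mod_cast hN
  have hApos : (0 : ℝ) < A.card := by exact_mod_cast hAne.card_pos
  have h2 : (2 : ℝ) ≤ (N : ℝ) / (A.card : ℝ) := by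
    rw [div_le_iff₀ hNpos] at hα
    rw [le_div_iff₀ hApos]
    linarith
  have hl2 : Real.log 2 ≤ l := by
    rw [hl]
    exact Real.log_le_log (by norm_num) h2
  have hlog2 := Real.log_two_gt_d9
  have hl0 : 0 < l := by linarith
  obtain ⟨R, hR⟩ : ∃ R : ℝ, R = (C + 3) * l := ⟨_, rfl⟩
  have hR3 : 3 * l ≤ R := by
    rw [hR]; nlinarith
  have hRC : C * l + 2 ≤ R := by
    rw [hR]
    nlinarith
  have hR2 : 2 ≤ R := by nlinarith
  obtain ⟨Γ, hΓ, hΓ'⟩ := part_one N hN d γ K hne hK hsym R (by linarith)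
    (fun y hy k => (hKR y hy k).trans (by linarith))
  have hlogR : 0 < Real.log R := Real.log_pos (by linarith)
  have hlog : Real.log (2 + l) ≤ 2 * Real.log R := by
    have h3 : 2 + l ≤ R ^ 2 := by nlinarith
    have h4 := Real.log_le_log (by linarith) h3
    rw [Real.log_pow] at h4
    push_cast at h4
    exact h4
  refine ⟨Γ, 1 / (8 * R), by positivity, ?_, ?_, hΓ'.trans hsub⟩
  · have h5 : Real.log ((N : ℝ) / ((convexBohr γ K).ncard : ℝ)) / Real.log R ≤ 2 * (C * l) := by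
      rw [div_le_iff₀ hlogR]
      calc Real.log ((N : ℝ) / ((convexBohr γ K).ncard : ℝ)) ≤ C * l * Real.log (2 + l) := hdens
        _ ≤ C * l * (2 * Real.log R) := by
            apply mul_le_mul_of_nonneg_left hlog
            positivity
        _ = 2 * (C * l) * Real.log R := by ring
    calc (Γ.card : ℝ) ≤ 24 * d + 4 * (Real.log ((N : ℝ) / ((convexBohr γ K).ncard : ℝ)) / Real.log R) := hΓ
      _ ≤ 24 * (C * l) + 4 * (2 * (C * l)) := by linarith
      _ = 32 * C * l := by ring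
  · rw [hR, div_div]
    apply le_of_eq
    congr 1
    ring

end Pool.Agent.Results.MP_169871_nt.ConvexBohrSets
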