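import Pool.Agent.TH858.GP.Dense2

/-!
# Q1 for sets that are dense on a translate of a proper progression

Let `P = {n_1 a_1 + … + n_d a_d : |n_i| ≤ L_i}` be a proper progression in `ℤ/N` of dimension `O(log (1/α))` and of
density `exp (- O(log (1/α) log log (1/α)))`. The theorem says that the conclusion of Q1 holds for every set `A` of
density `α ≤ 1/2` such that `A` contains at least a proportion `c / √(log (1/α))` of some translate of `P`.

The main step is `part_one`: if `|A ∩ (t + P)| ≥ δ |P|` then for `R ≥ max (d + 2) (1/δ)` the set `2A - 2A` contains a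
Bohr set with at most `295 d + 1 + 5 log (N/|P|) / log R + 32 / δ²` frequencies and radius `1 / (8 R)`. Its proof: a local
form of Bogolyubov's argument for `A ∩ (t + P)` and its densest intersection with a translate of a short multiple of
`P` (`Two`, `Dense`, `Dense2`); a Bessel inequality bounds the number of characters of the large spectrum modulo the
characters that are almost constant on a shorter multiple of `P`; the latter contains a Bohr set of small dimension by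
the theorem of the sibling file `ProperProgressions`.
-/

set_option autoImplicit false

namespace Pool.Agent.Results.MP_169871_nt.DenseOnProgressions

open Pool.Agent.TH858

/-- The Bohr set `B(Γ, ε) = {x ∈ ℤ/N : ‖γ x / N‖ ≤ ε for all γ ∈ Γ}`; the norm is the distance to the nearest
integer. -/
def bohr {N : ℕ} (Γ : Finset (ZMod N)) (ε : ℝ) : Set (ZMod N) :=
  {x | ∀ γ ∈ Γ, |((γ * x).val : ℝ) / (N : ℝ) - ((round (((γ * x).val : ℝ) / (N : ℝ)) : ℤ) : ℝ)| ≤ ε}

/-- The progression `{n_1 a_1 + … + n_d a_d : |n_i| ≤ L_i}`. -/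
def prog {N d : ℕ} (a : Fin d → ZMod N) (L : Fin d → ℕ) : Set (ZMod N) :=
  {x | ∃ n : Fin d → ℤ, (∀ i, |n i| ≤ L i) ∧ x = ∑ i, (n i : ZMod N) * a i}

/-- The progression is proper: different coefficients give different elements. -/
def Proper {N d : ℕ} (a : Fin d → ZMod N) (L : Fin d → ℕ) : Prop :=
  ∀ n n' : Fin d → ℤ, (∀ i, |n i| ≤ L i) → (∀ i, |n' i| ≤ L i) →
    ∑ i, (n i : ZMod N) * a i = ∑ i, (n' i : ZMod N) * a i → n = n'

/-- The set `2A - 2A`. -/
def twoAMinusTwoA {N : ℕ} (A : Finset (ZMod N)) : Set (ZMod N) :=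
  {x | ∃ a₁ ∈ A, ∃ a₂ ∈ A, ∃ a₃ ∈ A, ∃ a₄ ∈ A, x = a₁ + a₂ - a₃ - a₄}

/-- The part of `A` in the translate `t + P`. -/
def part {N : ℕ} (A : Finset (ZMod N)) (t : ZMod N) (P : Set (ZMod N)) : Set (ZMod N) :=
  {x | x ∈ A ∧ x - t ∈ P}

theorem prog_eq {N d : ℕ} (a : Fin d → ZMod N) (L : Fin d → ℕ) : prog a L = (GP.XX a L : Set (ZMod N)) := by
  ext x
  unfold GP.XX
  rw [Finset.mem_coe, Finset.mem_image]
  constructor
  · rintro ⟨n, hn, rfl⟩
    exact ⟨n, by rw [GP.mem_box]; exact hn, rfl⟩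
  · rintro ⟨n, hn, rfl⟩
    rw [GP.mem_box] at hn
    exact ⟨n, hn, rfl⟩

/-- A set that is dense on a translate of a proper progression. -/
theorem part_one (N : ℕ) (hN : 0 < N) (A : Finset (ZMod N)) (d : ℕ) (a : Fin d → ZMod N) (L : Fin d → ℕ)
    (hprop : Proper a L) (t : ZMod N) (δ : ℝ) (hδ : 0 < δ)
    (hA : δ * ((prog a L).ncard : ℝ) ≤ ((part A t (prog a L)).ncard : ℝ)) (R : ℝ) (hR : (d : ℝ) + 2 ≤ R)
    (hδR : 1 ≤ δ * R) :
    ∃ Γ : Finset (ZMod N),
      (Γ.card : ℝ) ≤ 295 * d + 1 + 5 * (Real.log ((N : ℝ) / ((prog a L).ncard : ℝ)) / Real.log R) + 32 / δ ^ 2 ∧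
      bohr Γ (1 / (8 * R)) ⊆ twoAMinusTwoA A := by
  have : NeZero N := ⟨hN.ne'⟩
  classical
  have hcard : (prog a L).ncard = (GP.XX a L).card := by rw [prog_eq, Set.ncard_coe_finset]
  have hinj : Set.InjOn (GP.ev a) (GP.box L) := by
    intro m hm m' hm' h
    rw [Finset.mem_coe, GP.mem_box] at hm hm'
    exact hprop m m' hm hm' h
  obtain ⟨A', hA'⟩ : ∃ A' : Finset (ZMod N), A' = A.filter fun y => y - t ∈ GP.XX a L := ⟨_, rfl⟩
  have hpart : part A t (prog a L) = (A' : Set (ZMod N)) := by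
    ext x
    rw [hA', Finset.mem_coe, Finset.mem_filter]
    unfold part
    rw [prog_eq]
    rfl
  rw [hpart, Set.ncard_coe_finset, hcard] at hA
  obtain ⟨Γ, h1, h2⟩ := GP.dense a L hinj R δ hR hδ hδR A' t (fun y hy => by
    rw [hA', Finset.mem_filter] at hy
    exact hy.2) hA
  refine ⟨Γ, by rw [hcard]; exact h1, fun x hx => ?_⟩
  obtain ⟨a₁, h3, a₂, h4, a₃, h5, a₄, h6, h7⟩ := h2 x fun g hg => hx g hg
  have hsub : A' ⊆ A := by rw [hA']; exact Finset.filter_subset _ _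
  exact ⟨a₁, hsub h3, a₂, hsub h4, a₃, hsub h5, a₄, hsub h6, h7⟩

/-- **Q1 for sets that are dense on a translate of a proper progression.** -/
theorem result (C : ℝ) (hC : 0 < C) (N : ℕ) (hN : 0 < N) (A : Finset (ZMod N)) (hAne : A.Nonempty)
    (hα : (A.card : ℝ) / (N : ℝ) ≤ 1 / 2)
    -- `P = prog a L` is a proper progression of dimension `d ≤ C log (1/α)` and of density at least
    -- `exp (- C log (1/α) log (2 + log (1/α)))`
    (d : ℕ) (a : Fin d → ZMod N) (L : Fin d → ℕ) (hprop : Proper a L)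
    (hd : (d : ℝ) ≤ C * Real.log ((N : ℝ) / (A.card : ℝ)))
    (hdens : Real.log ((N : ℝ) / ((prog a L).ncard : ℝ)) ≤
      C * Real.log ((N : ℝ) / (A.card : ℝ)) * Real.log (2 + Real.log ((N : ℝ) / (A.card : ℝ))))
    -- `|A ∩ (t + P)| ≥ δ |P|` with `δ ≥ (C log (1/α)) ^ (-1/2)`
    (t : ZMod N) (δ : ℝ) (hδ : 0 < δ) (hδC : 1 ≤ C * Real.log ((N : ℝ) / (A.card : ℝ)) * δ ^ 2)
    (hA : δ * ((prog a L).ncard : ℝ) ≤ ((part A t (prog a L)).ncard : ℝ)) :
    ∃ (Γ : Finset (ZMod N)) (ε : ℝ), 0 < ε ∧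
      (Γ.card : ℝ) ≤ (337 * C + 2) * Real.log ((N : ℝ) / (A.card : ℝ)) ∧
      (1 / (8 * (C + 3))) / Real.log ((N : ℝ) / (A.card : ℝ)) ≤ ε ∧
      bohr Γ ε ⊆ twoAMinusTwoA A := by
  obtain ⟨l, hl⟩ : ∃ l : ℝ, l = Real.log ((N : ℝ) / (A.card : ℝ)) := ⟨_, rfl⟩
  rw [← hl] at hd hdens hδC ⊢
  have hNpos : (0 : ℝ) < N := by exact_mod_cast hN
  have hApos : (0 : ℝ) < A.card := by exact_mod_cast hAne.card_pos
  have h2 : (2 : ℝ) ≤ (N : ℝ) / (A.card : ℝ) := by
    rw [div_le_iff₀ hNpos] at hα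
    rw [le_div_iff₀ hApos]
    linarith
  have hl2 : Real.log 2 ≤ l := by
    rw [hl]
    exact Real.log_le_log (by norm_num) h2
  have hlog2 := Real.log_two_gt_d9
  have hl0 : 0 < l := by linarith
  have hCl : 0 < C * l := by positivity
  obtain ⟨R, hR⟩ : ∃ R : ℝ, R = (C + 3) * l := ⟨_, rfl⟩
  have hR3 : 3 * l ≤ R := by
    rw [hR]; nlinarith
  have hRC : C * l + 2 ≤ R := by
    rw [hR]
    nlinarith
  have hR2 : 2 ≤ R := by nlinarith
  have hδR : 1 ≤ δ * R := by
    by_contra hcon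
    push Not at hcon
    have h3 : δ * (C * l + 2) < 1 := lt_of_le_of_lt (mul_le_mul_of_nonneg_left hRC hδ.le) hcon
    have h4 : C * l * δ ^ 2 < 1 := by
      have h5 : δ * (C * l) < 1 := by nlinarith
      have h6 : δ < 1 := by nlinarith
      calc C * l * δ ^ 2 = (δ * (C * l)) * δ := by ring
        _ ≤ (δ * (C * l)) * 1 := mul_le_mul_of_nonneg_left h6.le (by positivity)
        _ < 1 := by rw [mul_one]; exact h5
    linarith
  obtain ⟨Γ, hΓ, hΓ'⟩ := part_one N hN A d a L hprop t δ hδ hA R (by linarith) hδR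
  have hlogR : 0 < Real.log R := Real.log_pos (by linarith)
  have hlog : Real.log (2 + l) ≤ 2 * Real.log R := by
    have h3 : 2 + l ≤ R ^ 2 := by nlinarith
    have h4 := Real.log_le_log (by linarith) h3
    rw [Real.log_pow] at h4
    push_cast at h4
    exact h4
  refine ⟨Γ, 1 / (8 * R), by positivity, ?_, ?_, hΓ'⟩
  · have h5 : Real.log ((N : ℝ) / ((prog a L).ncard : ℝ)) / Real.log R ≤ 2 * (C * l) := by
      rw [div_le_iff₀ hlogR]
      calc Real.log ((N : ℝ) / ((prog a L).ncard : ℝ)) ≤ C * l * Real.log (2 + l) := hdens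
        _ ≤ C * l * (2 * Real.log R) := by
            apply mul_le_mul_of_nonneg_left hlog
            positivity
        _ = 2 * (C * l) * Real.log R := by ring
    have h6 : 32 / δ ^ 2 ≤ 32 * (C * l) := by
      rw [div_le_iff₀ (by positivity)]
      nlinarith
    calc (Γ.card : ℝ) ≤ 295 * d + 1 + 5 * (Real.log ((N : ℝ) / ((prog a L).ncard : ℝ)) / Real.log R) + 32 / δ ^ 2 := hΓ
      _ ≤ 295 * (C * l) + 2 * l + 5 * (2 * (C * l)) + 32 * (C * l) := by linarith
      _ = (337 * C + 2) * l := by ring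
  · rw [hR, div_div]
    apply le_of_eq
    congr 1
    ring

end Pool.Agent.Results.MP_169871_nt.DenseOnProgressions
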