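import Pool.Agent.TH934.BR.Main

/-!
# The dimension and the radius of a Bohr set in `2A - 2A`

For every small `α` and every large `N` there is a set `A ⊆ ℤ/N` of density between `α` and `2α` such that every
Bohr set `B(Γ, ε) ⊆ 2A - 2A` satisfies `|Γ| log (1/ε) ≥ (1/180) log (1/α) log log (1/α)`.

The statement Q1 of the problem (`|Γ| ≤ C log (1/α)`, `ε ≥ c / log (1/α)`) would give a Bohr set with
`|Γ| log (1/ε) ≤ C' log (1/α) log log (1/α)`; so it cannot be improved in this respect. In particular the radius in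
Q1 cannot be replaced by `c / (log (1/α))^κ` with `C κ < 1/180` (see `Pool/Agent/TH934/BR/Cor.lean`).

The set is a dilated and fattened copy of the random convex body of digits of `Pool/Agent/H842R3/Bogo*.lean`
(starting files; there the conclusion was drawn for Bohr sets of constant radius in the integers).
-/

set_option autoImplicit false

namespace Pool.Agent.Results.MP_169871_nt.RankRadiusTradeoff

/-- The Bohr set `B(Γ, ε) = {x ∈ ℤ/N : ‖γ x / N‖ ≤ ε for all γ ∈ Γ}`; the norm is the distance to the nearest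
integer. -/
def bohr {N : ℕ} (Γ : Finset (ZMod N)) (ε : ℝ) : Set (ZMod N) :=
  {x | ∀ γ ∈ Γ, |((γ * x).val : ℝ) / (N : ℝ) - ((round (((γ * x).val : ℝ) / (N : ℝ)) : ℤ) : ℝ)| ≤ ε}

/-- The set `2A - 2A`. -/
def twoAMinusTwoA {N : ℕ} (A : Finset (ZMod N)) : Set (ZMod N) :=
  {x | ∃ a₁ ∈ A, ∃ a₂ ∈ A, ∃ a₃ ∈ A, ∃ a₄ ∈ A, x = a₁ + a₂ - a₃ - a₄}

/-- For every small `α > 0` and all large `N` there is `A ⊆ ℤ/N` with `α N ≤ |A| ≤ 2 α N` such that every Bohr set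
`B(Γ, ε)`, `0 < ε ≤ 1/2`, contained in `2A - 2A` satisfies
`|Γ| log (1/ε) ≥ (1/180) log (1/α) log log (1/α)`. -/
theorem result : ∃ α₀ : ℝ, 0 < α₀ ∧ ∀ α : ℝ, 0 < α → α ≤ α₀ → ∃ N₀ : ℕ, ∀ N : ℕ, N₀ ≤ N →
    ∃ A : Finset (ZMod N), α * N ≤ (A.card : ℝ) ∧ (A.card : ℝ) ≤ 2 * α * N ∧
      ∀ (Γ : Finset (ZMod N)) (ε : ℝ), 0 < ε → ε ≤ 1 / 2 → bohr Γ ε ⊆ twoAMinusTwoA A →
        1 / 180 * (Real.log (1 / α) * Real.log (Real.log (1 / α))) ≤ Γ.card * Real.log (1 / ε) := by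
  obtain ⟨α₀, hα₀, h⟩ := Pool.Agent.TH934.BR.main
  refine ⟨α₀, hα₀, fun α hα hα' => ?_⟩
  obtain ⟨N₀, hN₀⟩ := h α hα hα'
  refine ⟨N₀, fun N hN => ?_⟩
  obtain ⟨A, h1, h2, h3⟩ := hN₀ N hN
  exact ⟨A, h1, h2, fun Γ ε hε hε' hsub => h3 Γ ε hε hε' fun x hx => hsub hx⟩

end Pool.Agent.Results.MP_169871_nt.RankRadiusTradeoff
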